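import Mathlib

/-!
# Closures of groups of rational points of `R_{K/ℚ}(G_m)`: definitions
-/

namespace Pool.Agent.TH125.Clo

open NumberField

/-- The group `A(ℂ) = (ℂˣ)^{Hom(K, ℂ)}` of complex points of `A = R_{K/ℚ}(G_m)`. -/
abbrev ComplexPoints (K : Type) [Field K] : Type := ((K →+* ℂ) → ℂ)ˣ

/-- The group `A(ℝ) = (K ⊗ ℝ)ˣ`: the points whose component at the complex conjugate of each
embedding `φ` is the conjugate of the component at `φ`. -/
def realPoints (K : Type) [Field K] : Set (ComplexPoints K) :=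
  {x | ∀ φ : K →+* ℂ, (x : (K →+* ℂ) → ℂ) (ComplexEmbedding.conjugate φ) =
    starRingEnd ℂ ((x : (K →+* ℂ) → ℂ) φ)}

/-- The image in `A(ℂ)` of a subgroup `L` of `A(ℚ) = Kˣ`; it lies in `A(ℝ)`. -/
def image (K : Type) [Field K] (L : Subgroup Kˣ) : Subgroup (ComplexPoints K) :=
  L.map (Units.map (canonicalEmbedding K : K →* (K →+* ℂ) → ℂ))

/-- The complex points of the algebraic subgroup of `A` where the characters
`x ↦ ∏ x_φ ^ (m φ)`, `m` in `M`, are trivial. -/
def kernel (K : Type) [Field K] [NumberField K] (M : AddSubgroup ((K →+* ℂ) → ℤ)) :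
    Set (ComplexPoints K) :=
  {x | ∀ m ∈ M, ∏ φ, ((x : (K →+* ℂ) → ℂ) φ) ^ (m φ) = 1}

/-- The group `M` of characters is stable under the automorphisms of `ℂ`, so that the
intersection of the kernels of its elements is defined over `ℚ`. -/
def DefinedOverQ (K : Type) [Field K] (M : AddSubgroup ((K →+* ℂ) → ℤ)) : Prop :=
  ∀ τ : ℂ ≃+* ℂ, ∀ m ∈ M, (fun φ : K →+* ℂ => m ((τ : ℂ →+* ℂ).comp φ)) ∈ M

/-- The subgroup `L` of `Kˣ` is stable under the Galois group. -/
def GaloisStable (K : Type) [Field K] [NumberField K] (L : Subgroup Kˣ) : Prop :=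
  ∀ g : K ≃ₐ[ℚ] K, ∀ x ∈ L, Units.map (g : K →* K) x ∈ L

end Pool.Agent.TH125.Clo
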