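import Pool.Agent.TH125.Clo.Main
import Pool.Agent.TH125.Clo.Def

/-!
# Abelian number fields
-/

namespace Pool.Agent.TH125.Clo

open Finset Topology Filter NumberField

set_option linter.unusedSectionVars false

variable {K : Type} [Field K] [NumberField K]

/-- The action of the Galois group on the embeddings. -/
def sh (g : Additive (K ≃ₐ[ℚ] K)) (φ : K →+* ℂ) : K →+* ℂ :=
  φ.comp ((Additive.toMul g : K ≃ₐ[ℚ] K) : K →+* K)

theorem sh_apply (g : Additive (K ≃ₐ[ℚ] K)) (φ : K →+* ℂ) (x : K) :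
    sh g φ x = φ ((Additive.toMul g : K ≃ₐ[ℚ] K) x) := rfl

theorem sh_surjective [IsGalois ℚ K] (φ₀ φ : K →+* ℂ) : ∃ g, sh g φ₀ = φ := by
  classical
  have hinj : Function.Injective fun g : Additive (K ≃ₐ[ℚ] K) => sh g φ₀ := by
    intro g h hgh
    apply Additive.toMul.injective
    ext x
    have h1 := congrArg (fun ψ : K →+* ℂ => ψ x) hgh
    exact φ₀.injective h1
  have hcard : Fintype.card (Additive (K ≃ₐ[ℚ] K)) = Fintype.card (K →+* ℂ) := by
    rw [NumberField.Embeddings.card K ℂ, ← IsGalois.card_aut_eq_finrank ℚ K,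
      Nat.card_eq_fintype_card]
    exact Fintype.card_congr Additive.toMul
  exact ((Fintype.bijective_iff_injective_and_card _).2 ⟨hinj, hcard⟩).2 φ

theorem image_real {L : Subgroup Kˣ} {x : ComplexPoints K} (hx : x ∈ image K L)
    (φ : K →+* ℂ) : (x : (K →+* ℂ) → ℂ) (ComplexEmbedding.conjugate φ) =
      starRingEnd ℂ ((x : (K →+* ℂ) → ℂ) φ) := by
  obtain ⟨y, _, rfl⟩ := hx
  rfl

theorem image_alg {L : Subgroup Kˣ} {x : ComplexPoints K} (hx : x ∈ image K L)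
    (φ : K →+* ℂ) : IsAlgebraic ℚ ((x : (K →+* ℂ) → ℂ) φ) := by
  obtain ⟨y, _, rfl⟩ := hx
  have h1 : IsAlgebraic ℚ (y : K) := Algebra.IsAlgebraic.isAlgebraic _
  exact h1.algHom φ.toRatAlgHom

theorem image_shu {L : Subgroup Kˣ} (hL : GaloisStable K L) (g : Additive (K ≃ₐ[ℚ] K))
    {x : ComplexPoints K} (hx : x ∈ image K L) : shu (sh g) x ∈ image K L := by
  obtain ⟨y, hy, rfl⟩ := hx
  refine ⟨Units.map ((Additive.toMul g : K ≃ₐ[ℚ] K) : K →* K) y, hL _ y hy, ?_⟩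
  apply Units.ext
  funext φ
  rfl

theorem cut_eq (M : AddSubgroup ((K →+* ℂ) → ℤ)) :
    (cut ComplexEmbedding.conjugate M : Set (ComplexPoints K)) = realPoints K ∩ kernel K M := rfl

theorem main [IsGalois ℚ K] (hK : ∀ g h : K ≃ₐ[ℚ] K, g * h = h * g) (L : Subgroup Kˣ)
    (hL : GaloisStable K L) : ∃ M : AddSubgroup ((K →+* ℂ) → ℤ), DefinedOverQ K M ∧
      connectedComponentIn (closure (image K L : Set (ComplexPoints K))) 1 =
        connectedComponentIn (realPoints K ∩ kernel K M) 1 := by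
  classical
  let _ : CommGroup (K ≃ₐ[ℚ] K) := { (inferInstance : Group (K ≃ₐ[ℚ] K)) with mul_comm := hK }
  obtain ⟨φ₀⟩ : Nonempty (K →+* ℂ) := inferInstance
  have hadd : ∀ (g h : Additive (K ≃ₐ[ℚ] K)) (φ : K →+* ℂ), sh (g + h) φ = sh g (sh h φ) := by
    intro g h φ
    rw [add_comm]
    rfl
  have h0 : ∀ φ : K →+* ℂ, sh (0 : Additive (K ≃ₐ[ℚ] K)) φ = φ := by
    intro φ
    rfl
  have hstab : ∀ (g : Additive (K ≃ₐ[ℚ] K)), ∀ x ∈ image K L, shu (sh g) x ∈ image K L :=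
    fun g x hx => image_shu hL g hx
  have hcore := core sh hadd h0 φ₀ (sh_surjective φ₀) ComplexEmbedding.conjugate
    (L := image K L) (fun x hx φ => image_real hx φ) (fun x hx φ => image_alg hx φ) hstab
  refine ⟨chars (image K L), ?_, ?_⟩
  · intro τ m hm
    obtain ⟨g, hg⟩ := sh_surjective φ₀ ((τ : ℂ →+* ℂ).comp φ₀)
    have hτ : ∀ φ : K →+* ℂ, (τ : ℂ →+* ℂ).comp φ = sh g φ := by
      intro φ
      obtain ⟨h, rfl⟩ := sh_surjective φ₀ φ
      rw [← hadd, add_comm, hadd, hg]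
      rfl
    rw [mem_chars] at hm ⊢
    intro v hv
    have h1 := hm _ (lie_shu (hstab (-g)) hv)
    have hneg : ∀ (φ : K →+* ℂ), sh (-g) (sh g φ) = φ := by
      intro φ
      rw [← hadd, neg_add_cancel, h0]
    have hneg' : ∀ (φ : K →+* ℂ), sh g (sh (-g) φ) = φ := by
      intro φ
      rw [← hadd, add_neg_cancel, h0]
    rw [pair, ← Equiv.sum_comp (⟨sh g, sh (-g), hneg, hneg'⟩ : (K →+* ℂ) ≃ (K →+* ℂ))] at h1
    rw [pair, ← h1]
    refine sum_congr rfl fun φ _ => ?_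
    simp only [Equiv.coe_fn_mk]
    rw [hneg, hτ]
  · rw [component, hcore, ← component, closure_cut, cut_eq]

end Pool.Agent.TH125.Clo
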