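import Mathlib
import Pool.Agent.H297R2.BakerThm

/-!
# Linear algebra for closures of Galois-stable groups
-/

namespace Pool.Agent.TH125.Clo

open Finset

variable {ι Γ : Type} [Fintype ι] [AddCommGroup Γ] [Fintype Γ]

/-- The pairing. -/
def pair (f v : ι → ℂ) : ℂ := ∑ i, f i * v i

theorem pair_add (f v w : ι → ℂ) : pair f (v + w) = pair f v + pair f w := by
  simp only [pair, Pi.add_apply, mul_add, sum_add_distrib]

theorem pair_smul (f : ι → ℂ) (c : ℂ) (v : ι → ℂ) : pair f (c • v) = c * pair f v := by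
  simp only [pair, Pi.smul_apply, smul_eq_mul, mul_sum]
  exact sum_congr rfl fun i _ => by ring

theorem add_pair (f g v : ι → ℂ) : pair (f + g) v = pair f v + pair g v := by
  simp only [pair, Pi.add_apply, add_mul, sum_add_distrib]

theorem smul_pair (c : ℂ) (f v : ι → ℂ) : pair (c • f) v = c * pair f v := by
  simp only [pair, Pi.smul_apply, smul_eq_mul, mul_sum]
  exact sum_congr rfl fun i _ => by ring

theorem pair_zero (f : ι → ℂ) : pair f 0 = 0 := by simp [pair]

theorem zero_pair (f : ι → ℂ) : pair 0 f = 0 := by simp [pair]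

theorem sum_pair {κ : Type*} (s : Finset κ) (f : κ → ι → ℂ) (v : ι → ℂ) :
    pair (∑ k ∈ s, f k) v = ∑ k ∈ s, pair (f k) v := by
  classical
  induction s using Finset.induction_on with
  | empty => simp [zero_pair]
  | insert a s ha ih => rw [sum_insert ha, sum_insert ha, add_pair, ih]

/-- The annihilator. -/
def ann (U : Submodule ℂ (ι → ℂ)) : Submodule ℂ (ι → ℂ) where
  carrier := {f | ∀ v ∈ U, pair f v = 0}
  add_mem' := by
    intro f g hf hg v hv
    rw [add_pair, hf v hv, hg v hv, add_zero]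
  zero_mem' := fun v _ => zero_pair v
  smul_mem' := by
    intro c f hf v hv
    rw [smul_pair, hf v hv, mul_zero]

theorem mem_of_ann {U : Submodule ℂ (ι → ℂ)} {r : ι → ℂ} (h : ∀ f ∈ ann U, pair f r = 0) :
    r ∈ U := by
  classical
  by_contra hr
  obtain ⟨φ, hφ, hU⟩ := Submodule.exists_dual_map_eq_bot_of_notMem hr inferInstance
  apply hφ
  have hpair : ∀ v, φ v = pair (fun i => φ (Pi.single i 1)) v := by
    intro v
    conv_lhs => rw [← Finset.univ_sum_single v]
    rw [map_sum, pair]
    refine sum_congr rfl fun i _ => ?_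
    have h1 : (Pi.single i (v i) : ι → ℂ) = v i • Pi.single i 1 := by
      rw [← Pi.single_smul, smul_eq_mul, mul_one]
    rw [h1, map_smul, smul_eq_mul, mul_comm]
  rw [hpair]
  apply h
  intro v hv
  rw [← hpair]
  have h2 : φ v ∈ U.map φ := ⟨v, hv, rfl⟩
  rw [hU] at h2
  exact (Submodule.mem_bot ℂ).1 h2

/-- In a translation invariant space of functions the functions with algebraic values are enough to
test orthogonality. -/
theorem algebraic_test (sh : Γ → ι → ι) (hadd : ∀ g h i, sh (g + h) i = sh g (sh h i))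
    (h0 : ∀ i, sh 0 i = i) (i₀ : ι) (hsur : ∀ i, ∃ g, sh g i₀ = i)
    {N : Submodule ℂ (ι → ℂ)} (hN : ∀ g, ∀ f ∈ N, (fun i => f (sh g i)) ∈ N) {r : ι → ℂ}
    (h : ∀ χ ∈ N, (∀ i, IsAlgebraic ℚ (χ i)) → pair χ r = 0) {f : ι → ℂ} (hf : f ∈ N) :
    pair f r = 0 := by
  classical
  set F : AddChar Γ ℂ → ι → ℂ := fun ψ => ∑ g, ψ (-g) • fun i => f (sh g i) with hF
  have hFN : ∀ ψ, F ψ ∈ N := fun ψ => Submodule.sum_mem _ fun g _ => N.smul_mem _ (hN g f hf)
  have hFsh : ∀ ψ k i, F ψ (sh k i) = ψ k * F ψ i := by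
    intro ψ k i
    simp only [hF, Finset.sum_apply, Pi.smul_apply, smul_eq_mul]
    rw [mul_sum, ← Equiv.sum_comp (Equiv.addRight k) (fun g => ψ k * (ψ (-g) * f (sh g i)))]
    refine sum_congr rfl fun g _ => ?_
    simp only [Equiv.coe_addRight]
    have h9 : k + -(g + k) = -g := by abel
    rw [hadd, ← mul_assoc, ← AddChar.map_add_eq_mul, h9]
  have hzero : ∀ ψ, pair (F ψ) r = 0 := by
    intro ψ
    by_cases hc : F ψ i₀ = 0
    · have h1 : F ψ = 0 := by
        funext i
        obtain ⟨g, rfl⟩ := hsur i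
        rw [hFsh, hc, mul_zero, Pi.zero_apply]
      rw [h1, zero_pair]
    · have h1 := h ((F ψ i₀)⁻¹ • F ψ) (N.smul_mem _ (hFN ψ)) (by
        intro i
        obtain ⟨g, rfl⟩ := hsur i
        rw [Pi.smul_apply, smul_eq_mul, hFsh, mul_comm, mul_assoc, mul_inv_cancel₀ hc, mul_one]
        have h2 : (ψ g) ^ (Fintype.card Γ) = 1 := by
          rw [← AddChar.map_nsmul_eq_pow, card_nsmul_eq_zero, AddChar.map_zero_eq_one]
        have h3 : IsIntegral ℤ (ψ g) := by
          refine IsIntegral.of_pow (Fintype.card_pos : 0 < Fintype.card Γ) ?_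
          rw [h2]
          exact isIntegral_one
        exact h3.tower_top.isAlgebraic)
      rw [smul_pair] at h1
      exact (mul_eq_zero.1 h1).resolve_left (inv_ne_zero hc)
  have hsum : ∑ ψ, F ψ = (Fintype.card Γ : ℂ) • f := by
    funext i
    simp only [hF, Finset.sum_apply, Pi.smul_apply, smul_eq_mul]
    rw [sum_comm]
    have h1 : ∀ g : Γ, ∑ ψ : AddChar Γ ℂ, ψ (-g) * f (sh g i) =
        if g = 0 then (Fintype.card Γ : ℂ) * f (sh g i) else 0 := by
      intro g
      rw [← sum_mul, AddChar.sum_apply_eq_ite]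
      by_cases hg : g = 0
      · rw [if_pos hg, if_pos (by rw [hg, neg_zero])]
      · rw [if_neg hg, if_neg (by rwa [neg_eq_zero]), zero_mul]
    rw [sum_congr rfl fun g _ => h1 g, sum_ite_eq' univ (0 : Γ) (fun g => (Fintype.card Γ : ℂ) *
      f (sh g i)), if_pos (mem_univ _), h0]
  have h4 : (Fintype.card Γ : ℂ) * pair f r = 0 := by
    rw [← smul_pair, ← hsum, sum_pair]
    exact sum_eq_zero fun ψ _ => hzero ψ
  have h5 : (Fintype.card Γ : ℂ) ≠ 0 := by
    exact_mod_cast (Fintype.card_ne_zero : Fintype.card Γ ≠ 0)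
  exact (mul_eq_zero.1 h4).resolve_left h5

/-- A vector with rational components. -/
def IsRat (r : ι → ℂ) : Prop := ∀ i, ∃ q : ℚ, r i = q

/-- The application of Baker's theorem. -/
theorem baker_step {U : Submodule ℂ (ι → ℂ)} {u : ι → ℂ} (hu : u ∈ U)
    (halg : ∀ i, IsAlgebraic ℚ (Complex.exp (u i)))
    (hU : ∀ r : ι → ℂ, (∀ χ ∈ ann U, (∀ i, IsAlgebraic ℚ (χ i)) → pair χ r = 0) → r ∈ U) :
    u ∈ Submodule.span ℂ {r | r ∈ U ∧ IsRat r} := by
  classical
  obtain ⟨b, hb, hspan, hli⟩ := exists_linearIndependent ℚ (Set.range u)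
  have hfin : Finite b := (Set.finite_range u).subset hb
  have : Fintype b := Fintype.ofFinite b
  have hmem : ∀ i, ∃ q : b → ℚ, ∑ j, q j • (j : ℂ) = u i := by
    intro i
    have h1 : u i ∈ Submodule.span ℚ b := by
      rw [hspan]
      exact Submodule.subset_span ⟨i, rfl⟩
    have h2 : Submodule.span ℚ b = Submodule.span ℚ (Set.range ((↑) : b → ℂ)) := by
      rw [Subtype.range_coe]
    rw [h2] at h1
    exact (Submodule.mem_span_range_iff_exists_fun ℚ).1 h1
  choose q hq using hmem
  have hr : ∀ j : b, (fun i => (q i j : ℂ)) ∈ U := by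
    intro j
    refine hU _ fun χ hχ hχalg => ?_
    have h1 : ∑ k : b, (∑ i, χ i * (q i k : ℂ)) * (k : ℂ) = 0 := by
      have h2 := hχ u hu
      rw [pair] at h2
      rw [← h2]
      have h3 : ∀ k : b, (∑ i, χ i * (q i k : ℂ)) * (k : ℂ) = ∑ i, χ i * ((q i k : ℂ) * (k : ℂ)) := by
        intro k
        rw [sum_mul]
        exact sum_congr rfl fun i _ => by ring
      rw [sum_congr rfl fun k _ => h3 k, sum_comm]
      refine sum_congr rfl fun i _ => ?_
      rw [← mul_sum, ← hq i]
      simp only [Rat.smul_def]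
    refine Pool.Agent.H297R2.baker (fun k : b => (k : ℂ)) ?_ hli
      (fun k => ∑ i, χ i * (q i k : ℂ)) ?_ h1 j
    · intro k
      obtain ⟨i, hi⟩ := hb k.2
      rw [← hi]
      exact halg i
    · intro k
      refine Finset.sum_induction _ (IsAlgebraic ℚ) (fun _ _ => IsAlgebraic.add) isAlgebraic_zero
        fun i _ => ?_
      exact (hχalg i).mul (isAlgebraic_algebraMap (q i k))
  have h4 : u = ∑ j : b, (j : ℂ) • fun i => (q i j : ℂ) := by
    funext i
    simp only [Finset.sum_apply, Pi.smul_apply, smul_eq_mul]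
    rw [← hq i]
    refine sum_congr rfl fun k _ => ?_
    rw [Rat.smul_def, mul_comm]
  rw [h4]
  refine Submodule.sum_mem _ fun j _ => Submodule.smul_mem _ _ (Submodule.subset_span ⟨hr j, ?_⟩)
  exact fun i => ⟨q i j, rfl⟩

theorem clear_denominators (q : ι → ℚ) : ∃ D : ℚ, D ≠ 0 ∧ ∃ m : ι → ℤ, ∀ i, (m i : ℚ) = D * q i := by
  classical
  refine ⟨∏ k, ((q k).den : ℚ), ?_, fun i => (∏ k ∈ univ.erase i, ((q k).den : ℤ)) * (q i).num, ?_⟩
  · rw [prod_ne_zero_iff]
    intro k _
    exact_mod_cast (q k).den_ne_zero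
  · intro i
    have h1 := (Rat.mul_den_eq_num (q i)).symm
    push_cast
    rw [h1, ← mul_prod_erase univ _ (mem_univ i)]
    ring

/-- A space spanned by rational vectors is defined by equations with integral coefficients. -/
theorem exists_form {U : Submodule ℂ (ι → ℂ)} (hU : U ≤ Submodule.span ℂ {r | r ∈ U ∧ IsRat r})
    {v : ι → ℂ} (hv : v ∉ U) :
    ∃ m : ι → ℤ, (∀ w ∈ U, pair (fun i => (m i : ℂ)) w = 0) ∧ pair (fun i => (m i : ℂ)) v ≠ 0 := by
  classical
  let W : Submodule ℚ (ι → ℚ) :=
    { carrier := {w | (fun i => (w i : ℂ)) ∈ U}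
      add_mem' := by
        intro a b ha hb
        have h1 : (fun i => (((a + b) i : ℚ) : ℂ)) = (fun i => (a i : ℂ)) + fun i => (b i : ℂ) := by
          funext i
          simp
        change (fun i => (((a + b) i : ℚ) : ℂ)) ∈ U
        rw [h1]
        exact U.add_mem ha hb
      zero_mem' := by
        change (fun i => (((0 : ι → ℚ) i : ℚ) : ℂ)) ∈ U
        have h1 : (fun i => (((0 : ι → ℚ) i : ℚ) : ℂ)) = 0 := by
          funext i
          simp
        rw [h1]
        exact U.zero_mem
      smul_mem' := by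
        intro c a ha
        have h1 : (fun i => (((c • a) i : ℚ) : ℂ)) = (c : ℂ) • fun i => (a i : ℂ) := by
          funext i
          simp
        change (fun i => (((c • a) i : ℚ) : ℂ)) ∈ U
        rw [h1]
        exact U.smul_mem _ ha }
  have hW : ∀ w, w ∈ W ↔ (fun i => (w i : ℂ)) ∈ U := fun w => Iff.rfl
  obtain ⟨W', hWW'⟩ := W.exists_isCompl
  let P : (ι → ℚ) →ₗ[ℚ] (ι → ℚ) := W.subtype ∘ₗ W.projectionOnto W' hWW'
  have hPW : ∀ x, P x ∈ W := fun x => (W.projectionOnto W' hWW' x).2
  have hPid : ∀ w ∈ W, P w = w := by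
    intro w hw
    change ((W.projectionOnto W' hWW' w : W) : ι → ℚ) = w
    exact congrArg Subtype.val (Submodule.projectionOnto_apply_left hWW' ⟨w, hw⟩)
  have hPsum : ∀ x i, P x i = ∑ j, x j * P (Pi.single j 1) i := by
    intro x i
    conv_lhs => rw [← Finset.univ_sum_single x]
    rw [map_sum, Finset.sum_apply]
    refine sum_congr rfl fun j _ => ?_
    have h1 : (Pi.single j (x j) : ι → ℚ) = x j • Pi.single j 1 := by
      rw [← Pi.single_smul, smul_eq_mul, mul_one]
    rw [h1, map_smul, Pi.smul_apply, smul_eq_mul]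
  set Q : ι → ι → ℚ := fun i j => (if i = j then 1 else 0) - P (Pi.single j 1) i with hQ
  have hkill : ∀ i, ∀ w ∈ U, pair (fun j => (Q i j : ℂ)) w = 0 := by
    intro i w hw
    refine Submodule.span_induction (p := fun w _ => pair (fun j => (Q i j : ℂ)) w = 0)
      ?_ (pair_zero _) ?_ ?_ (hU hw)
    · rintro r ⟨hrU, hrat⟩
      choose s hs using hrat
      have hsW : s ∈ W := by
        rw [hW]
        have : (fun i => (s i : ℂ)) = r := by
          funext i
          exact (hs i).symm
        rwa [this]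
      have h1 : s i - ∑ j, s j * P (Pi.single j 1) i = 0 := by
        rw [← hPsum, hPid s hsW, sub_self]
      have h2 : pair (fun j => (Q i j : ℂ)) r = ((s i - ∑ j, s j * P (Pi.single j 1) i : ℚ) : ℂ) := by
        rw [pair]
        have h3 : ∀ j, (Q i j : ℂ) * r j = ((if i = j then s j else 0 : ℚ) : ℂ) -
            ((s j * P (Pi.single j 1) i : ℚ) : ℂ) := by
          intro j
          rw [hs j]
          by_cases hij : i = j
          · simp only [hQ, if_pos hij]
            push_cast
            ring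
          · simp only [hQ, if_neg hij]
            push_cast
            ring
        rw [sum_congr rfl fun j _ => h3 j, sum_sub_distrib, ← Rat.cast_sum, ← Rat.cast_sum,
          sum_ite_eq, if_pos (mem_univ i)]
        push_cast
        ring
      rw [h2, h1, Rat.cast_zero]
    · intro a b _ _ ha hb
      rw [pair_add, ha, hb, add_zero]
    · intro c a _ ha
      rw [pair_smul, ha, mul_zero]
  have hex : ∃ i, pair (fun j => (Q i j : ℂ)) v ≠ 0 := by
    by_contra hcon
    push Not at hcon
    apply hv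
    have h1 : v = ∑ j, v j • fun i => (P (Pi.single j 1) i : ℂ) := by
      funext i
      have h2 := hcon i
      rw [pair] at h2
      simp only [Finset.sum_apply, Pi.smul_apply, smul_eq_mul]
      have h3 : ∀ j, (Q i j : ℂ) * v j = (if i = j then v j else 0) -
          v j * (P (Pi.single j 1) i : ℂ) := by
        intro j
        by_cases hij : i = j
        · simp only [hQ, if_pos hij]
          push_cast
          ring
        · simp only [hQ, if_neg hij]
          push_cast
          ring
      rw [sum_congr rfl fun j _ => h3 j, sum_sub_distrib, sum_ite_eq, if_pos (mem_univ i)] at h2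
      exact sub_eq_zero.1 h2
    rw [h1]
    refine Submodule.sum_mem _ fun j _ => U.smul_mem _ ?_
    exact (hW _).1 (hPW (Pi.single j 1))
  obtain ⟨i, hi⟩ := hex
  obtain ⟨D, hD, m, hm⟩ := clear_denominators (Q i)
  have hmD : (fun j => (m j : ℂ)) = (D : ℂ) • fun j => (Q i j : ℂ) := by
    funext j
    rw [Pi.smul_apply, smul_eq_mul]
    have := congrArg (fun x : ℚ => (x : ℂ)) (hm j)
    push_cast at this
    exact this
  refine ⟨m, fun w hw => ?_, ?_⟩
  · rw [hmD, smul_pair, hkill i w hw, mul_zero]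
  · rw [hmD, smul_pair]
    exact mul_ne_zero (by exact_mod_cast hD) hi

end Pool.Agent.TH125.Clo
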