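import Pool.Agent.TH125.Clo.Top

/-!
# The Lie algebra of the closure of a stable group
-/

namespace Pool.Agent.TH125.Clo

open Finset Topology Filter Pool.Agent.W54.CL

variable {ι Γ : Type} [Fintype ι] [AddCommGroup Γ] [Fintype Γ]

/-- Composition with a map of the index set. -/
def shu (σ : ι → ι) (x : (ι → ℂ)ˣ) : (ι → ℂ)ˣ where
  val := fun i => (x : ι → ℂ) (σ i)
  inv := fun i => ((x⁻¹ : (ι → ℂ)ˣ) : ι → ℂ) (σ i)
  val_inv := by
    funext i
    exact congrFun x.mul_inv (σ i)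
  inv_val := by
    funext i
    exact congrFun x.inv_mul (σ i)

theorem continuous_shu (σ : ι → ι) : Continuous (shu σ : (ι → ℂ)ˣ → (ι → ℂ)ˣ) := by
  rw [Units.continuous_iff]
  constructor
  · exact continuous_pi fun i => continuous_coord (σ i)
  · exact continuous_pi fun i => (continuous_coord (σ i)).comp continuous_inv

/-- The space of the vectors `v ∘ σ`. -/
theorem lie_shu {σ : ι → ι} {L : Subgroup (ι → ℂ)ˣ} (hL : ∀ x ∈ L, shu σ x ∈ L) {v : ι → ℂ}
    (hv : v ∈ lie L) : (fun i => v (σ i)) ∈ lie L := by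
  rw [mem_lie] at hv ⊢
  intro t
  have h1 : ex (t • fun i => v (σ i)) = shu σ (ex (t • v)) := by
    apply Units.ext
    funext i
    rfl
  rw [h1]
  exact map_mem_closure (continuous_shu σ) (hv t) hL

/-- The complexification of the Lie algebra. -/
noncomputable def lieC (L : Subgroup (ι → ℂ)ˣ) : Submodule ℂ (ι → ℂ) :=
  Submodule.span ℂ (lie L : Set (ι → ℂ))

theorem lieC_shu {σ : ι → ι} {L : Subgroup (ι → ℂ)ˣ} (hL : ∀ x ∈ L, shu σ x ∈ L) {v : ι → ℂ}
    (hv : v ∈ lieC L) : (fun i => v (σ i)) ∈ lieC L := by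
  refine Submodule.span_induction (p := fun v _ => (fun i => v (σ i)) ∈ lieC L) ?_ ?_ ?_ ?_ hv
  · intro x hx
    exact Submodule.subset_span (lie_shu hL hx)
  · exact Submodule.zero_mem _
  · intro x y _ _ hx hy
    exact Submodule.add_mem _ hx hy
  · intro c x _ hx
    exact Submodule.smul_mem _ c hx

theorem exists_dec {L : Subgroup (ι → ℂ)ˣ} {v : ι → ℂ} (hv : v ∈ lieC L) :
    ∃ a ∈ lie L, ∃ b ∈ lie L, v = a + Complex.I • b := by
  refine Submodule.span_induction (p := fun v _ => ∃ a ∈ lie L, ∃ b ∈ lie L,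
    v = a + Complex.I • b) ?_ ?_ ?_ ?_ hv
  · intro x hx
    exact ⟨x, hx, 0, Submodule.zero_mem _, by rw [smul_zero, add_zero]⟩
  · exact ⟨0, Submodule.zero_mem _, 0, Submodule.zero_mem _, by rw [smul_zero, add_zero]⟩
  · rintro x y _ _ ⟨a, ha, b, hb, rfl⟩ ⟨a', ha', b', hb', rfl⟩
    refine ⟨a + a', Submodule.add_mem _ ha ha', b + b', Submodule.add_mem _ hb hb', ?_⟩
    rw [smul_add]
    abel
  · rintro c x _ ⟨a, ha, b, hb, rfl⟩
    refine ⟨c.re • a - c.im • b, Submodule.sub_mem _ (Submodule.smul_mem _ _ ha)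
      (Submodule.smul_mem _ _ hb), c.im • a + c.re • b, Submodule.add_mem _
      (Submodule.smul_mem _ _ ha) (Submodule.smul_mem _ _ hb), ?_⟩
    funext i
    simp only [Pi.smul_apply, Pi.add_apply, Pi.sub_apply, smul_eq_mul, Complex.real_smul]
    conv_lhs => rw [← Complex.re_add_im c]
    linear_combination (c.im * b i) * Complex.I_mul_I

/-- The characters which are trivial on the Lie algebra. -/
def chars (L : Subgroup (ι → ℂ)ˣ) : AddSubgroup (ι → ℤ) where
  carrier := {m | ∀ v ∈ lie L, pair (fun i => (m i : ℂ)) v = 0}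
  add_mem' := by
    intro a b ha hb v hv
    have h1 : (fun i => (((a + b) i : ℤ) : ℂ)) = (fun i => (a i : ℂ)) + fun i => (b i : ℂ) := by
      funext i
      simp
    rw [h1, add_pair, ha v hv, hb v hv, add_zero]
  zero_mem' := by
    intro v _
    have h1 : (fun i => (((0 : ι → ℤ) i : ℤ) : ℂ)) = 0 := by
      funext i
      simp
    rw [h1, zero_pair]
  neg_mem' := by
    intro a ha v hv
    have h1 : (fun i => (((-a) i : ℤ) : ℂ)) = (-1 : ℂ) • fun i => (a i : ℂ) := by
      funext i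
      simp
    rw [h1, smul_pair, ha v hv, mul_zero]

theorem mem_chars {L : Subgroup (ι → ℂ)ˣ} {m : ι → ℤ} :
    m ∈ chars L ↔ ∀ v ∈ lie L, pair (fun i => (m i : ℂ)) v = 0 := Iff.rfl

theorem pair_lieC {L : Subgroup (ι → ℂ)ˣ} {m : ι → ℂ} (h : ∀ v ∈ lie L, pair m v = 0)
    {v : ι → ℂ} (hv : v ∈ lieC L) : pair m v = 0 := by
  obtain ⟨a, ha, b, hb, rfl⟩ := exists_dec hv
  rw [pair_add, pair_smul, h a ha, h b hb, mul_zero, add_zero]

theorem core (sh : Γ → ι → ι) (hadd : ∀ g h i, sh (g + h) i = sh g (sh h i))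
    (h0 : ∀ i, sh 0 i = i) (i₀ : ι) (hsur : ∀ i, ∃ g, sh g i₀ = i) (c : ι → ι)
    {L : Subgroup (ι → ℂ)ˣ}
    (hreal : ∀ x ∈ L, ∀ i, (x : ι → ℂ) (c i) = starRingEnd ℂ ((x : ι → ℂ) i))
    (halg : ∀ x ∈ L, ∀ i, IsAlgebraic ℚ ((x : ι → ℂ) i))
    (hstab : ∀ g, ∀ x ∈ L, shu (sh g) x ∈ L) :
    lie L = lie (cut c (chars L)) := by
  have hneg : ∀ g i, sh (-g) (sh g i) = i := by
    intro g i
    rw [← hadd, neg_add_cancel, h0]
  have hneg' : ∀ g i, sh g (sh (-g) i) = i := by
    intro g i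
    rw [← hadd, add_neg_cancel, h0]
  have hann : ∀ g, ∀ f ∈ ann (lieC L), (fun i => f (sh g i)) ∈ ann (lieC L) := by
    intro g f hf v hv
    have h1 := hf _ (lieC_shu (hstab (-g)) hv)
    rw [pair, ← Equiv.sum_comp (⟨sh g, sh (-g), hneg g, hneg' g⟩ : ι ≃ ι)] at h1
    rw [pair, ← h1]
    refine sum_congr rfl fun i _ => ?_
    simp only [Equiv.coe_fn_mk]
    rw [hneg]
  have hU : ∀ r : ι → ℂ, (∀ χ ∈ ann (lieC L), (∀ i, IsAlgebraic ℚ (χ i)) → pair χ r = 0) →
      r ∈ lieC L := by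
    intro r hr
    apply mem_of_ann
    intro f hf
    exact algebraic_test sh hadd h0 i₀ hsur hann hr hf
  have hrat : lieC L ≤ Submodule.span ℂ {r | r ∈ lieC L ∧ IsRat r} := by
    rw [lieC, Submodule.span_le]
    intro v hv
    have hclosed : IsClosed
        ((Submodule.span ℂ {r | r ∈ lieC L ∧ IsRat r} : Submodule ℂ (ι → ℂ)) : Set (ι → ℂ)) :=
      Submodule.closed_of_finiteDimensional _
    have hmem : v ∈ closure
        ((Submodule.span ℂ {r | r ∈ lieC L ∧ IsRat r} : Submodule ℂ (ι → ℂ)) : Set (ι → ℂ)) := by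
      rw [Metric.mem_closure_iff]
      intro δ hδ
      obtain ⟨u, hu, huL, huv⟩ := dense L hv hδ
      refine ⟨u, ?_, ?_⟩
      · refine baker_step (Submodule.subset_span hu) (fun i => ?_) hU
        rw [← ex_apply]
        exact halg _ huL i
      · rw [dist_comm, dist_eq_norm]
        exact huv
    rw [hclosed.closure_eq] at hmem
    exact hmem
  apply le_antisymm
  · intro v hv
    rw [lie_cut]
    exact ⟨fun i => real_of_lie hreal hv i, fun m hm => hm v hv⟩
  · intro v hv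
    rw [lie_cut] at hv
    obtain ⟨hvr, hvm⟩ := hv
    have hvU : v ∈ lieC L := by
      by_contra hcon
      obtain ⟨m, hm, hm'⟩ := exists_form hrat hcon
      exact hm' (hvm m fun w hw => hm w (Submodule.subset_span hw))
    obtain ⟨a, ha, b, hb, rfl⟩ := exists_dec hvU
    have hb0 : b = 0 := by
      funext i
      have h1 := hvr i
      have h2 := real_of_lie hreal ha i
      have h3 := real_of_lie hreal hb i
      simp only [Pi.add_apply, Pi.smul_apply, smul_eq_mul, map_add, map_mul, Complex.conj_I,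
        h2, h3] at h1
      have h4 : starRingEnd ℂ (b i) = 0 := by
        have h5 : (2 * Complex.I) * starRingEnd ℂ (b i) = 0 := by linear_combination h1
        exact (mul_eq_zero.1 h5).resolve_left (by simp)
      rw [Pi.zero_apply]
      exact (map_eq_zero (starRingEnd ℂ)).1 h4
    rw [hb0, smul_zero, add_zero]
    exact ha

end Pool.Agent.TH125.Clo
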