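import Pool.Agent.TH125.Clo.Lin
import Pool.Agent.W539.CL.Comp
import Pool.Agent.W929.CL.OPEN

/-!
# Closed subgroups of `(ℂˣ)^ι`
-/

namespace Pool.Agent.TH125.Clo

open Finset Topology Filter Pool.Agent.W54.CL

variable {ι : Type} [Fintype ι]

/-- The exponential map. -/
noncomputable def ex (v : ι → ℂ) : (ι → ℂ)ˣ where
  val := fun i => Complex.exp (v i)
  inv := fun i => Complex.exp (-(v i))
  val_inv := by
    funext i
    simp [← Complex.exp_add]
  inv_val := by
    funext i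
    simp [← Complex.exp_add]

theorem ex_apply (v : ι → ℂ) (i : ι) : (ex v : ι → ℂ) i = Complex.exp (v i) := rfl

theorem unit_ne (x : (ι → ℂ)ˣ) (i : ι) : (x : ι → ℂ) i ≠ 0 := by
  intro h
  have h1 := congrFun x.mul_inv i
  rw [Pi.mul_apply, h, zero_mul, Pi.one_apply] at h1
  exact zero_ne_one h1

theorem continuous_coord (i : ι) : Continuous fun x : (ι → ℂ)ˣ => (x : ι → ℂ) i :=
  (continuous_apply i).comp Units.continuous_val

theorem chart : Chart (ex : (ι → ℂ) → (ι → ℂ)ˣ) where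
  map_add := by
    intro x y
    apply Units.ext
    funext i
    rw [Units.val_mul, Pi.mul_apply, ex_apply, ex_apply, ex_apply, Pi.add_apply, Complex.exp_add]
  cont := by
    rw [Units.continuous_iff]
    constructor
    · exact continuous_pi fun i => Complex.continuous_exp.comp (continuous_apply i)
    · exact continuous_pi fun i => Complex.continuous_exp.comp (continuous_apply i).neg
  sec := by
    refine ⟨fun g i => Complex.log ((g : ι → ℂ) i), ?_, Eventually.of_forall fun g => ?_⟩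
    · rw [tendsto_pi_nhds]
      intro i
      have h1 : ContinuousAt (fun g : (ι → ℂ)ˣ => Complex.log ((g : ι → ℂ) i)) 1 := by
        refine ContinuousAt.clog (continuous_coord i).continuousAt ?_
        rw [Units.val_one, Pi.one_apply]
        exact Complex.one_mem_slitPlane
      have h2 := h1.tendsto
      simp only [Units.val_one, Pi.one_apply, Complex.log_one] at h2
      exact h2
    · apply Units.ext
      funext i
      rw [ex_apply]
      exact Complex.exp_log (unit_ne g i)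

theorem comp_main : StComp := Pool.Agent.W539.CL.Comp.main Pool.Agent.W929.CLOPEN.main

/-- The Lie algebra of the closure of a subgroup. -/
noncomputable abbrev lie (L : Subgroup (ι → ℂ)ˣ) : Submodule ℝ (ι → ℂ) := maxSub (pre chart L)

theorem mem_lie {L : Subgroup (ι → ℂ)ˣ} {v : ι → ℂ} :
    v ∈ lie L ↔ ∀ t : ℝ, ex (t • v) ∈ closure (L : Set (ι → ℂ)ˣ) := Iff.rfl

theorem component (L : Subgroup (ι → ℂ)ˣ) :
    connectedComponentIn (closure (L : Set (ι → ℂ)ˣ)) 1 = ex '' (lie L : Set (ι → ℂ)) :=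
  (comp_main (ι → ℂ) (ι → ℂ)ˣ ex chart L).1

theorem dense (L : Subgroup (ι → ℂ)ˣ) {v : ι → ℂ} (hv : v ∈ lie L) {δ : ℝ} (hδ : 0 < δ) :
    ∃ u ∈ lie L, ex u ∈ L ∧ ‖u - v‖ < δ :=
  (comp_main (ι → ℂ) (ι → ℂ)ˣ ex chart L).2.1 v hv δ hδ

theorem eq_zero_of_exp {c : ℂ} (h : ∀ t : ℝ, Complex.exp (t * c) = 1) : c = 0 := by
  by_contra hc
  have h1 := h 1
  rw [Complex.ofReal_one, one_mul, Complex.exp_eq_one_iff] at h1
  obtain ⟨n, hn⟩ := h1
  have hn0 : (n : ℂ) ≠ 0 := by
    intro h0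
    apply hc
    rw [hn, h0, zero_mul]
  have h2 := h (1 / (2 * n))
  have h3 : (((1 / (2 * n) : ℝ)) : ℂ) * c = Real.pi * Complex.I := by
    rw [hn]
    push_cast
    field_simp
  rw [h3, Complex.exp_pi_mul_I] at h2
  norm_num at h2

/-- The lie algebra of a closed group cut out by characters and reality conditions. -/
theorem real_of_lie {c : ι → ι} {L : Subgroup (ι → ℂ)ˣ}
    (hL : ∀ x ∈ L, ∀ i, (x : ι → ℂ) (c i) = starRingEnd ℂ ((x : ι → ℂ) i)) {v : ι → ℂ}
    (hv : v ∈ lie L) (i : ι) : v (c i) = starRingEnd ℂ (v i) := by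
  have hcl : ∀ x ∈ closure (L : Set (ι → ℂ)ˣ), (x : ι → ℂ) (c i) =
      starRingEnd ℂ ((x : ι → ℂ) i) := by
    intro x hx
    have h1 : IsClosed {x : (ι → ℂ)ˣ | (x : ι → ℂ) (c i) = starRingEnd ℂ ((x : ι → ℂ) i)} :=
      isClosed_eq (continuous_coord (c i)) (Complex.continuous_conj.comp (continuous_coord i))
    exact closure_minimal (fun x hx => hL x hx i) h1 hx
  rw [← sub_eq_zero]
  apply eq_zero_of_exp
  intro t
  have h1 := hcl _ (mem_lie.1 hv t)
  rw [ex_apply, ex_apply, ← Complex.exp_conj, Pi.smul_apply, Pi.smul_apply, Complex.real_smul,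
    Complex.real_smul, map_mul, Complex.conj_ofReal] at h1
  rw [mul_sub, Complex.exp_sub, h1, div_self (Complex.exp_ne_zero _)]

theorem character_of_lie {m : ι → ℤ} {L : Subgroup (ι → ℂ)ˣ}
    (hL : ∀ x ∈ L, ∏ i, ((x : ι → ℂ) i) ^ (m i) = 1) {v : ι → ℂ}
    (hv : v ∈ lie L) : pair (fun i => (m i : ℂ)) v = 0 := by
  have hcl : ∀ x ∈ closure (L : Set (ι → ℂ)ˣ), ∏ i, ((x : ι → ℂ) i) ^ (m i) = 1 := by
    intro x hx
    have h1 : IsClosed {x : (ι → ℂ)ˣ | ∏ i, ((x : ι → ℂ) i) ^ (m i) = 1} := by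
      refine isClosed_eq (continuous_finsetProd _ fun i _ => ?_) continuous_const
      exact (continuous_coord i).zpow₀ (m i) fun x => Or.inl (unit_ne x i)
    exact closure_minimal (fun x hx => hL x hx) h1 hx
  apply eq_zero_of_exp
  intro t
  have h1 := hcl _ (mem_lie.1 hv t)
  rw [← h1, pair, mul_sum, Complex.exp_sum]
  refine prod_congr rfl fun i _ => ?_
  rw [ex_apply, ← Complex.exp_int_mul, Pi.smul_apply, Complex.real_smul]
  congr 1
  ring

/-- The group cut out by reality conditions and characters. -/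
def cut (c : ι → ι) (M : AddSubgroup (ι → ℤ)) : Subgroup (ι → ℂ)ˣ where
  carrier := {x | (∀ i, (x : ι → ℂ) (c i) = starRingEnd ℂ ((x : ι → ℂ) i)) ∧
    ∀ m ∈ M, ∏ i, ((x : ι → ℂ) i) ^ (m i) = 1}
  mul_mem' := by
    rintro x y ⟨hx, hx'⟩ ⟨hy, hy'⟩
    refine ⟨fun i => ?_, fun m hm => ?_⟩
    · rw [Units.val_mul, Pi.mul_apply, Pi.mul_apply, hx, hy, map_mul]
    · have h1 : ∀ i, (((x * y : (ι → ℂ)ˣ) : ι → ℂ) i) ^ (m i) =
          ((x : ι → ℂ) i) ^ (m i) * ((y : ι → ℂ) i) ^ (m i) := by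
        intro i
        rw [Units.val_mul, Pi.mul_apply, mul_zpow]
      rw [prod_congr rfl fun i _ => h1 i, prod_mul_distrib, hx' m hm, hy' m hm, mul_one]
  one_mem' := by
    refine ⟨fun i => ?_, fun m _ => ?_⟩
    · rw [Units.val_one, Pi.one_apply, Pi.one_apply, map_one]
    · refine prod_eq_one fun i _ => ?_
      rw [Units.val_one, Pi.one_apply, one_zpow]
  inv_mem' := by
    rintro x ⟨hx, hx'⟩
    have hinv : ∀ i, ((x⁻¹ : (ι → ℂ)ˣ) : ι → ℂ) i = ((x : ι → ℂ) i)⁻¹ := by
      intro i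
      have h1 := congrFun x.mul_inv i
      rw [Pi.mul_apply, Pi.one_apply] at h1
      exact eq_inv_of_mul_eq_one_right h1
    refine ⟨fun i => ?_, fun m hm => ?_⟩
    · rw [hinv, hinv, hx, map_inv₀]
    · have h1 : ∀ i, (((x⁻¹ : (ι → ℂ)ˣ) : ι → ℂ) i) ^ (m i) = (((x : ι → ℂ) i) ^ (m i))⁻¹ := by
        intro i
        rw [hinv, inv_zpow]
      rw [prod_congr rfl fun i _ => h1 i, prod_inv_distrib, hx' m hm, inv_one]

theorem closure_cut (c : ι → ι) (M : AddSubgroup (ι → ℤ)) :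
    closure (cut c M : Set (ι → ℂ)ˣ) = cut c M := by
  apply IsClosed.closure_eq
  have h1 : (cut c M : Set (ι → ℂ)ˣ) =
      (⋂ i, {x : (ι → ℂ)ˣ | (x : ι → ℂ) (c i) = starRingEnd ℂ ((x : ι → ℂ) i)}) ∩
        ⋂ m ∈ M, {x : (ι → ℂ)ˣ | ∏ i, ((x : ι → ℂ) i) ^ (m i) = 1} := by
    ext x
    simp only [Set.mem_inter_iff, Set.mem_iInter, Set.mem_setOf_eq]
    rfl
  rw [h1]
  refine IsClosed.inter (isClosed_iInter fun i => ?_) (isClosed_iInter fun m => isClosed_iInter
    fun _ => ?_)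
  · exact isClosed_eq (continuous_coord (c i)) (Complex.continuous_conj.comp (continuous_coord i))
  · refine isClosed_eq (continuous_finsetProd _ fun i _ => ?_) continuous_const
    exact (continuous_coord i).zpow₀ (m i) fun x => Or.inl (unit_ne x i)

theorem lie_cut (c : ι → ι) (M : AddSubgroup (ι → ℤ)) (v : ι → ℂ) :
    v ∈ lie (cut c M) ↔ (∀ i, v (c i) = starRingEnd ℂ (v i)) ∧
      ∀ m ∈ M, pair (fun i => (m i : ℂ)) v = 0 := by
  constructor
  · intro hv
    exact ⟨fun i => real_of_lie (L := cut c M) (fun x hx => hx.1) hv i,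
      fun m hm => character_of_lie (L := cut c M) (fun x hx => hx.2 m hm) hv⟩
  · rintro ⟨h1, h2⟩
    rw [mem_lie]
    intro t
    apply subset_closure
    refine ⟨fun i => ?_, fun m hm => ?_⟩
    · rw [ex_apply, ex_apply, ← Complex.exp_conj, Pi.smul_apply, Pi.smul_apply, h1,
        Complex.real_smul, Complex.real_smul, map_mul, Complex.conj_ofReal]
    · have h3 : ∏ i, ((ex (t • v) : ι → ℂ) i) ^ (m i) =
          Complex.exp (t * pair (fun i => (m i : ℂ)) v) := by
        rw [pair, mul_sum, Complex.exp_sum]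
        refine prod_congr rfl fun i _ => ?_
        rw [ex_apply, ← Complex.exp_int_mul, Pi.smul_apply, Complex.real_smul]
        congr 1
        ring
      rw [h3, h2 m hm, mul_zero, Complex.exp_zero]

end Pool.Agent.TH125.Clo
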